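import Pool.Agent.Helper72.VX.Root
import Pool.Agent.Helper93.BW.RkQe

/-! # The residue at a node of arbitrary thickness (`V_Rk`) -/

set_option autoImplicit false

open Polynomial Matrix Finset

namespace Pool.Agent.Helper93.VX

open Pool.Agent.Helper62.BM Pool.Agent.Helper62.BW Pool.Agent.Helper62.BX Pool.Agent.Helper62.CX
open Pool.Agent.Helper62.VX Pool.Agent.Helper72.VX
open Pool.Agent.Helper12.BW (tay_inj tay_sub)
open Pool.Agent.Helper93.BW (eval_eval_C)

section

variable {A : Type} [CommRing A] [IsDomain A]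

/-- the embedding of the coefficients -/
noncomputable abbrev ps (A : Type) [CommRing A] [IsDomain A] : A →+* FractionRing A :=
  algebraMap A (FractionRing A)

theorem ps_inj : Function.Injective (ps A) := IsFractionRing.injective A (FractionRing A)

/-- `G(s(τ), t₀ + τ)` -/
noncomputable def Th (t₀ : A) (s : PowerSeries (FractionRing A)) :
    A[X][X] →+* PowerSeries (FractionRing A) :=
  (Pool.Agent.Helper72.VX.sub (ps A t₀) s).comp (mapRingHom (mapRingHom (ps A)))

theorem Th_apply (t₀ : A) (s : PowerSeries (FractionRing A)) (G : A[X][X]) :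
    Th t₀ s G = Pool.Agent.Helper72.VX.sub (ps A t₀) s (G.map (mapRingHom (ps A))) := rfl

theorem ev_map (G : A[X][X]) (t₀ x₀ : A) :
    (((G.map (mapRingHom (ps A))).map (evalRingHom (ps A t₀)))).eval (ps A x₀) =
      ps A ((G.map (evalRingHom t₀)).eval x₀) := by
  have h : (evalRingHom (ps A t₀)).comp (mapRingHom (ps A)) = (ps A).comp (evalRingHom t₀) := by
    ext1
    · ext a
      simp
    · simp
  rw [Polynomial.map_map, h, ← Polynomial.map_map, eval_map_apply]

theorem Th_const (t₀ x₀ : A) (s : PowerSeries (FractionRing A))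
    (hs : PowerSeries.constantCoeff s = ps A x₀) (G : A[X][X]) :
    PowerSeries.constantCoeff (Th t₀ s G) = ps A ((G.map (evalRingHom t₀)).eval x₀) := by
  rw [Th_apply, sub_const, hs, ev_map]

theorem Th_X (t₀ : A) (s : PowerSeries (FractionRing A)) : Th t₀ s X = s := by
  rw [Th_apply, Polynomial.map_X, sub_X]

theorem Th_C (t₀ : A) (s : PowerSeries (FractionRing A)) (q : A[X]) :
    Th t₀ s (Polynomial.C q) = tay (ps A t₀) (q.map (ps A)) := by
  rw [Th_apply, Polynomial.map_C, sub_C]
  rfl

theorem Th_der (t₀ : A) (s : PowerSeries (FractionRing A)) (G : A[X][X]) :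
    PowerSeries.derivative (FractionRing A) (Th t₀ s G) =
      Th t₀ s (dt G) + Th t₀ s (derivative G) * PowerSeries.derivative (FractionRing A) s := by
  rw [Th_apply, sub_der, Th_apply, Th_apply]
  congr 2
  · ext1 i
    rw [coeff_dt, coeff_map, coeff_map, coeff_dt]
    exact (derivative_map (G.coeff i) (ps A))
  · rw [derivative_map]

/-- a common zero of `F` and `F'` contradicts the separability -/
theorem Th_ne {F : A[X][X]} (hsep : (F.map (algebraMap A[X] (FractionRing A[X]))).Separable)
    (t₀ : A) (s : PowerSeries (FractionRing A)) (hs : Th t₀ s (derivative F) = 0) :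
    Th t₀ s F ≠ 0 := by
  let χ : A[X] →+* PowerSeries (FractionRing A) := (tay (ps A t₀)).comp (mapRingHom (ps A))
  have hχ : Function.Injective χ := by
    intro a b hab
    have h1 : tay (ps A t₀) (a.map (ps A)) = tay (ps A t₀) (b.map (ps A)) := hab
    exact Polynomial.map_injective (ps A) ps_inj (tay_inj _ h1)
  let ι : PowerSeries (FractionRing A) →+* FractionRing (PowerSeries (FractionRing A)) :=
    algebraMap (PowerSeries (FractionRing A)) (FractionRing (PowerSeries (FractionRing A)))
  have hι : Function.Injective ι := IsFractionRing.injective _ _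
  have hιχ : Function.Injective (ι.comp χ) := hι.comp hχ
  let lam : FractionRing A[X] →+* FractionRing (PowerSeries (FractionRing A)) :=
    IsFractionRing.lift (K := FractionRing A[X]) (g := ι.comp χ) hιχ
  have hlam : lam.comp (algebraMap A[X] (FractionRing A[X])) = ι.comp χ := by
    refine RingHom.ext fun x => ?_
    exact IsFractionRing.lift_algebraMap (K := FractionRing A[X]) hιχ x
  have hev : ∀ G : A[X][X], (G.map (algebraMap A[X] (FractionRing A[X]))).eval₂ lam (ι s) =
      ι (Th t₀ s G) := by
    intro G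
    rw [eval₂_map, hlam, Th_apply, Pool.Agent.Helper72.VX.sub, Polynomial.coe_eval₂RingHom,
      eval₂_map, hom_eval₂]
  intro h0
  refine hsep.eval₂_derivative_ne_zero lam (x := ι s) ?_ ?_
  · rw [hev, h0, map_zero]
  · rw [derivative_map, hev, hs, map_zero]

end

theorem exists_nu {A : Type} [CommRing A] [IsDomain A] [CharZero A] {g : ℕ} {F : A[X][X]}
    (hGen : Gen g F) {t₀ x₀ : A} {f₁ : A[X]} (hNode : Node1 F t₀ x₀ f₁) :
    ∃ ν : ℕ, 0 < ν ∧ ∀ (P S : A[X][X]) (w : A[X]) (l : ℕ),
      2 * (P * F + S * derivative F) =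
        Polynomial.C ((X - Polynomial.C t₀) * (2 * w)) * X ^ l * dt F →
      (P.map (evalRingHom t₀)).eval x₀ = (ν : A) * (w.eval t₀ * x₀ ^ l) := by
  obtain ⟨hmon, hdeg, hsepF⟩ := hGen
  obtain ⟨hF, hsep, hfx⟩ := hNode
  set h : A[X] := X - Polynomial.C x₀ with hh
  have hdh : derivative h = 1 := by rw [hh]; simp
  have hhx : h.eval x₀ = 0 := by rw [hh]; simp
  have hder : (derivative F).map (evalRingHom t₀) = h * (2 * f₁ + h * derivative f₁) := by
    rw [← derivative_map, hF]
    simp only [derivative_mul, derivative_pow, hdh]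
    norm_num
    rw [show (Polynomial.C (2 : A)) = (2 : A[X]) from map_ofNat _ 2]
    ring
  obtain ⟨s, hs0, hs⟩ := exists_root ((derivative F).map (mapRingHom (ps A))) (ps A t₀) (ps A x₀)
    (by rw [ev_map, hder]; simp [hhx])
    (by
      have e1 : ((derivative F).map (mapRingHom (ps A))).map (evalRingHom (ps A t₀)) =
          ((derivative F).map (evalRingHom t₀)).map (ps A) := by
        have h : (evalRingHom (ps A t₀)).comp (mapRingHom (ps A)) =
            (ps A).comp (evalRingHom t₀) := by
          ext1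
          · ext a
            simp
          · simp
        rw [Polynomial.map_map, h, ← Polynomial.map_map]
      rw [e1, derivative_map, eval_map_apply, hder]
      have e2 : (derivative (h * (2 * f₁ + h * derivative f₁))).eval x₀ = 2 * f₁.eval x₀ := by
        rw [derivative_mul, hdh]
        simp [hhx]
      rw [e2]
      intro h0
      exact mul_ne_zero two_ne_zero hfx (ps_inj (by rw [h0, map_zero])))
  have hs' : Th t₀ s (derivative F) = 0 := hs
  have hφ := Th_ne hsepF t₀ s hs'
  have hφ0 : PowerSeries.constantCoeff (Th t₀ s F) = 0 := by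
    rw [Th_const t₀ x₀ s hs0, hF]
    simp [hhx]
  obtain ⟨ν, hν, hres⟩ := res_one hφ hφ0
  refine ⟨ν, hν, fun P S w l hrel => ?_⟩
  have e1 := congrArg (Th t₀ s) hrel
  rw [map_mul, map_add, map_mul, map_mul, hs', mul_zero, add_zero, map_mul, map_mul, map_pow,
    Th_X, Th_C, map_ofNat] at e1
  have e2 : Th t₀ s (dt F) = PowerSeries.derivative (FractionRing A) (Th t₀ s F) := by
    rw [Th_der, hs', zero_mul, add_zero]
  have e3 : tay (ps A t₀) (((X - Polynomial.C t₀) * (2 * w)).map (ps A)) =
      PowerSeries.X * (2 * tay (ps A t₀) (w.map (ps A))) := by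
    rw [Polynomial.map_mul, Polynomial.map_mul, Polynomial.map_sub, Polynomial.map_X,
      Polynomial.map_C, map_mul, tay_sub, Polynomial.map_ofNat, map_mul, map_ofNat]
  rw [e2, e3] at e1
  have h2 : (2 : PowerSeries (FractionRing A)) ≠ 0 := by
    intro h0
    have := congrArg PowerSeries.constantCoeff h0
    rw [map_ofNat, map_zero] at this
    exact two_ne_zero this
  have e4 : Th t₀ s P * Th t₀ s F = PowerSeries.X * (tay (ps A t₀) (w.map (ps A)) * s ^ l) *
      PowerSeries.derivative (FractionRing A) (Th t₀ s F) := by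
    apply mul_left_cancel₀ h2
    rw [e1]
    ring
  have e5 := hres _ _ e4
  rw [Th_const t₀ x₀ s hs0, map_mul, map_pow, hs0, tay_const, eval_map_apply, ← map_natCast (ps A),
    ← map_pow, ← map_mul, ← map_mul] at e5
  exact ps_inj e5

theorem v_rk : V_Rk := by
  intro A _ _ _ g hg F hGen t₀ x₀ f₁ hNode w P S hRel
  obtain ⟨ν, hν, hres⟩ := exists_nu hGen hNode
  refine ⟨ν, hν, fun m l => ?_⟩
  obtain ⟨hmon, hdeg, -⟩ := hGen
  obtain ⟨hF, hsep, hfx⟩ := hNode
  obtain ⟨hPd, hSd, hrel⟩ := hRel l
  have h2 : (2 : A) ≠ 0 := two_ne_zero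
  have h2X : (2 : A[X]) ≠ 0 := two_ne_zero
  set h : A[X] := X - Polynomial.C x₀ with hh
  have hh0 : h ≠ 0 := X_sub_C_ne_zero x₀
  set e0 : A[X] →+* A := evalRingHom t₀ with he0
  set P₀ := (P l).map e0 with hP₀
  set S₀ := (S l).map e0 with hS₀
  have hF0mon : (h ^ 2 * f₁).Monic := hF ▸ hmon.map e0
  have hf₁mon : f₁.Monic := Monic.of_mul_monic_left ((monic_X_sub_C x₀).pow 2) hF0mon
  have hhf : (h * f₁).Monic := (monic_X_sub_C x₀).mul hf₁mon
  have hhf0 : h * f₁ ≠ 0 := hhf.ne_zero
  have hdhf : (h * f₁).natDegree = 2 * g := by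
    have e1 : (h ^ 2 * f₁).natDegree = 2 * g + 1 := by
      rw [← hF, hmon.natDegree_map, hdeg]
    rw [((monic_X_sub_C x₀).pow 2).natDegree_mul hf₁mon, (monic_X_sub_C x₀).natDegree_pow,
      natDegree_X_sub_C] at e1
    rw [(monic_X_sub_C x₀).natDegree_mul hf₁mon, natDegree_X_sub_C]
    omega
  have hdh : derivative h = 1 := by rw [hh]; simp
  have hder : (derivative F).map e0 = h * (2 * f₁ + h * derivative f₁) := by
    rw [← derivative_map, hF]
    simp only [derivative_mul, derivative_pow, hdh]
    norm_num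
    rw [show (Polynomial.C (2 : A)) = (2 : A[X]) from map_ofNat _ 2]
    ring
  -- the relation at `t₀`
  have hr0 : P₀ * (h * f₁) + S₀ * (2 * f₁ + h * derivative f₁) = 0 := by
    have e1 := congrArg (Polynomial.map e0) hrel
    simp only [Polynomial.map_mul, Polynomial.map_add, Polynomial.map_C, Polynomial.map_ofNat] at e1
    have e2 : e0 ((X - Polynomial.C t₀) * (2 * w)) = 0 := by
      rw [he0]; simp
    rw [e2, map_zero, zero_mul, zero_mul, hF, hder] at e1
    have e3 : (2 * h) * (P₀ * (h * f₁) + S₀ * (2 * f₁ + h * derivative f₁)) = 0 := by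
      rw [← e1]; ring
    exact (mul_eq_zero.1 e3).resolve_left (mul_ne_zero h2X hh0)
  -- `h f₁` divides `S₀`
  have hdvd : h * f₁ ∣ S₀ := by
    set ψ := algebraMap A (FractionRing A) with hψ
    have hinj : Function.Injective ψ := IsFractionRing.injective A (FractionRing A)
    rw [← Polynomial.map_dvd_map ψ hinj hhf]
    have hmap : h.map ψ = X - Polynomial.C (ψ x₀) := by rw [hh]; simp
    have hc1 : IsCoprime (h.map ψ) (f₁.map ψ) := by
      rw [hmap]
      refine (irreducible_X_sub_C (ψ x₀)).coprime_iff_not_dvd.2 ?_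
      rw [dvd_iff_isRoot, IsRoot.def, eval_map_apply]
      exact fun h0 => hfx (hinj (by rw [h0, map_zero]))
    have hc2 : IsCoprime (h.map ψ) ((2 * f₁ + h * derivative f₁).map ψ) := by
      have h3 : (2 * f₁ + h * derivative f₁).map ψ =
          Polynomial.C 2 * f₁.map ψ + (derivative f₁).map ψ * h.map ψ := by
        simp only [Polynomial.map_add, Polynomial.map_mul, Polynomial.map_ofNat]
        rw [map_ofNat]; ring
      rw [h3]
      refine (IsCoprime.add_mul_right_right ?_ _)
      refine IsCoprime.mul_right ?_ hc1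
      exact ⟨0, Polynomial.C 2⁻¹, by
        rw [zero_mul, zero_add, ← Polynomial.C_mul, inv_mul_cancel₀ two_ne_zero, Polynomial.C_1]⟩
    have hc3 : IsCoprime (f₁.map ψ) ((2 * f₁ + h * derivative f₁).map ψ) := by
      have h3 : (2 * f₁ + h * derivative f₁).map ψ =
          h.map ψ * derivative (f₁.map ψ) + 2 * f₁.map ψ := by
        simp only [Polynomial.map_add, Polynomial.map_mul, Polynomial.map_ofNat, derivative_map]
        ring
      rw [h3]
      refine (IsCoprime.add_mul_right_right ?_ _)
      exact IsCoprime.mul_right hc1.symm hsep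
    have hc4 : IsCoprime ((h * f₁).map ψ) ((2 * f₁ + h * derivative f₁).map ψ) := by
      rw [Polynomial.map_mul]; exact IsCoprime.mul_left hc2 hc3
    refine hc4.dvd_of_dvd_mul_right ?_
    rw [← Polynomial.map_mul]
    refine Polynomial.map_dvd ψ ?_
    exact ⟨-P₀, by linear_combination hr0⟩
  obtain ⟨q, hq⟩ := hdvd
  have hqd : q.natDegree = 0 := by
    by_cases hq0 : q = 0
    · rw [hq0, natDegree_zero]
    have e1 : S₀.natDegree ≤ 2 * g := natDegree_map_le.trans hSd
    rw [hq, hhf.natDegree_mul' hq0, hdhf] at e1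
    omega
  obtain ⟨c, hc⟩ : ∃ c : A, q = Polynomial.C c := ⟨q.coeff 0, eq_C_of_natDegree_eq_zero hqd⟩
  rw [hc] at hq
  have hPe : P₀ = -(Polynomial.C c * (2 * f₁ + h * derivative f₁)) := by
    have e1 : (h * f₁) * (P₀ + Polynomial.C c * (2 * f₁ + h * derivative f₁)) = 0 := by
      rw [hq] at hr0
      linear_combination hr0
    have e2 := (mul_eq_zero.1 e1).resolve_left hhf0
    linear_combination e2
  -- the derivative of the relation at `(x₀, t₀)`
  have hhx : h.eval x₀ = 0 := by rw [hh]; simp
  have hpx : ((P l).eval (Polynomial.C x₀)).eval t₀ = -(c * (2 * f₁.eval x₀)) := by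
    rw [eval_eval_C, ← hP₀, hPe]
    simp [hhx]
  have hkey : ((P l).eval (Polynomial.C x₀)).eval t₀ = (ν : A) * (w.eval t₀ * x₀ ^ (l : ℕ)) := by
    rw [eval_eval_C]
    exact hres _ _ _ _ hrel
  -- the matrix
  have hM : (Mg P S m l).eval t₀ = -(c * (h * derivative f₁).coeff m) := by
    have e1 : (Mg P S m l).eval t₀ = -((P₀ + 2 * derivative S₀).coeff m) := by
      simp only [Mg, Matrix.of_apply]
      rw [eval_neg, hP₀, hS₀, derivative_map]
      have e2 : (2 * (derivative (S l)).map e0 : A[X]) = (2 * derivative (S l)).map e0 := by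
        simp
      rw [e2, ← Polynomial.map_add, coeff_map, he0]
      rfl
    rw [e1, hPe, hq]
    have e3 : -(Polynomial.C c * (2 * f₁ + h * derivative f₁)) +
        2 * derivative (h * f₁ * Polynomial.C c) = Polynomial.C c * (h * derivative f₁) := by
      simp only [derivative_mul, hdh, derivative_C]
      ring
    rw [e3, coeff_C_mul]
  rw [hM]
  rw [hpx] at hkey
  linear_combination ((h * derivative f₁).coeff m) * hkey

end Pool.Agent.Helper93.VX
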